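import Pool.Agent.Helper446.CB.FinDef

/-!
Minimality is definable in the lattice of `Π⁰₁` classes.
-/

namespace Pool.Agent.Results.MP_aad418_lc.MinimalDefinable

open Pool.Agent.Helper446.Defs Pool.Agent.Helper446.CB

/-- `P` is a minimal class: it is infinite, and every `Π⁰₁` subclass of `P` is finite or has finite
complement in `P`. -/
def IsMinimalClass (P : Set (ℕ → Bool)) : Prop :=
  P.Infinite ∧ ∀ Q : Set (ℕ → Bool), IsPi01 Q → Q ⊆ P → Q.Finite ∨ (P \ Q).Finite

/-- A closed set is finite iff its first derivative is empty. -/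
theorem finite_iff {P : Set (ℕ → Bool)} (hP : IsClosed P) :
    P.Finite ↔ cb P ((1 : ℕ) : Ordinal.{0}) = ∅ := by
  have h1 : cb P ((1 : ℕ) : Ordinal.{0}) = deriv P := by
    rw [Nat.cast_one, ← zero_add (1 : Ordinal.{0}), cb_succ, cb_zero]
  rw [h1]
  constructor
  · intro hfin
    rw [Set.eq_empty_iff_forall_notMem]
    rintro x ⟨hx, h2⟩
    have h3 : (P \ {x}).Finite := hfin.subset Set.sdiff_subset
    refine h2 (P \ {x})ᶜ h3.isClosed.isOpen_compl ?_
    ext y
    constructor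
    · rintro ⟨h4, h5⟩
      by_contra h6
      exact h4 ⟨h5, h6⟩
    · rintro rfl
      exact ⟨fun h4 => h4.2 rfl, hx⟩
  · intro hd
    have hcomp : IsCompact P := hP.isCompact
    have hiso : ∀ x ∈ P, ∃ U : Set (ℕ → Bool), IsOpen U ∧ U ∩ P = {x} := by
      intro x hx
      by_contra hcon
      push Not at hcon
      have h2 : x ∈ deriv P := ⟨hx, hcon⟩
      rw [hd] at h2
      exact h2
    choose! U hU1 hU2 using hiso
    obtain ⟨t, hcov⟩ := hcomp.elim_nhds_subcover' (fun x _ => U x) (fun x hx =>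
      (hU1 x hx).mem_nhds (by
        have h3 : x ∈ U x ∩ P := by rw [hU2 x hx]; rfl
        exact h3.1))
    refine (t.finite_toSet.image Subtype.val).subset fun y hy => ?_
    have h4 := hcov hy
    rw [Set.mem_iUnion₂] at h4
    obtain ⟨x, hx, hyx⟩ := h4
    have h5 : y ∈ U x ∩ P := ⟨hyx, hy⟩
    rw [hU2 x x.2] at h5
    exact ⟨x, hx, h5.symm⟩

theorem def_finite : Def1 fun F => F.1.Finite := by
  intro Γ i
  exact (def_null 1 i).of_iff fun v => (finite_iff (IsPi01.isClosed (v i).2)).symm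

/-- For `Q ⊆ P`, the difference is finite iff `P` is covered by `Q` and a finite class. -/
theorem diff_finite_iff (P Q : EPi) : (P.1 \ Q.1).Finite ↔
    ∃ F : EPi, F.1.Finite ∧ ∀ S : EPi, Q ≤ S → F ≤ S → P ≤ S := by
  constructor
  · intro h
    have hQ : IsClosed Q.1 := IsPi01.isClosed Q.2
    have hdisj : Disjoint (P.1 \ Q.1) Q.1 := Set.disjoint_sdiff_left
    obtain ⟨C, hC, h1, h2⟩ := exists_clopen_of_closed_subset_open
      (h.isClosed) (hQ.isOpen_compl) hdisj.subset_compl_right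
    have hF : IsPi01 (P.1 ∩ C) := IsPi01.inter P.2 (IsPi01.of_clopen hC)
    refine ⟨⟨P.1 ∩ C, hF⟩, h.subset ?_, ?_⟩
    · rintro x ⟨hx, hxC⟩
      exact ⟨hx, h2 hxC⟩
    · intro S hQS hFS x hx
      by_cases hxQ : x ∈ Q.1
      · exact hQS hxQ
      · exact hFS ⟨hx, h1 ⟨hx, hxQ⟩⟩
  · rintro ⟨F, hF, h⟩
    refine hF.subset ?_
    rintro x ⟨hx, hxQ⟩
    have h1 : P.1 ⊆ Q.1 ∪ F.1 := h ⟨Q.1 ∪ F.1, IsPi01.union Q.2 F.2⟩
      Set.subset_union_left Set.subset_union_right
    exact (h1 hx).resolve_left hxQ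

/-- The family of the minimal `Π⁰₁` classes is definable, by a first-order formula without
parameters, in the partial order of all `Π⁰₁` classes. -/
theorem result : IsDefinable {P : EPi | IsMinimalClass P.1} := by
  have h : Def1 fun P => IsMinimalClass P.1 := by
    intro Γ i
    refine (DefP.and (def_finite i).not (DefP.all (R := fun v (Q : EPi) => Q ≤ v i →
      (Q.1.Finite ∨ ∃ F : EPi, F.1.Finite ∧ ∀ S : EPi, Q ≤ S → F ≤ S → v i ≤ S))
      ?_)).of_iff fun v => ?_
    · refine (DefP.le _ _).imp ((def_finite _).or ?_)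
      refine DefP.ex (R := fun (v : Γ ⊕ Unit → EPi) (F : EPi) => F.1.Finite ∧
        ∀ S : EPi, v (Sum.inr ()) ≤ S → F ≤ S → v (Sum.inl i) ≤ S) ?_
      refine (def_finite _).and ?_
      refine DefP.all (R := fun (v : (Γ ⊕ Unit) ⊕ Unit → EPi) (S : EPi) =>
        v (Sum.inl (Sum.inr ())) ≤ S → v (Sum.inr ()) ≤ S → v (Sum.inl (Sum.inl i)) ≤ S) ?_
      exact (DefP.le _ _).imp ((DefP.le _ _).imp (DefP.le _ _))
    · constructor
      · rintro ⟨h1, h2⟩
        refine ⟨h1, fun Q hQ hQP => ?_⟩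
        rcases h2 ⟨Q, hQ⟩ hQP with h3 | h3
        · exact Or.inl h3
        · exact Or.inr ((diff_finite_iff (v i) ⟨Q, hQ⟩).2 h3)
      · rintro ⟨h1, h2⟩
        refine ⟨h1, fun Q hQP => ?_⟩
        rcases h2 Q.1 Q.2 hQP with h3 | h3
        · exact Or.inl h3
        · exact Or.inr ((diff_finite_iff (v i) Q).1 h3)
  exact isDefinable_of_def1 h

end Pool.Agent.Results.MP_aad418_lc.MinimalDefinable
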